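import Pool.Agent.H487.GA.Stm2

set_option autoImplicit false

/-! The truncated Poisson kernel is admissible (helper178 for helper487). -/

open Finset Complex Filter Topology Metric Set MeasureTheory

namespace Pool.Agent.H178.GA

open Pool.Agent.H487.GA

noncomputable section

/-- the majorant -/
def gy (y ξ : ℝ) : ℝ := y / (1 + (y * ξ) ^ 2)

theorem gy_pos {y : ℝ} (hy : 0 < y) (ξ : ℝ) : 0 < gy y ξ := by
  unfold gy
  positivity

theorem gy_eq (y ξ : ℝ) : gy y ξ = y * (1 + (y * ξ) ^ 2)⁻¹ := by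
  unfold gy
  rw [div_eq_mul_inv]

theorem gy_integrable {y : ℝ} (hy : 0 < y) : IntegrableOn (gy y) (Ioi 0) := by
  have h : Integrable (fun ξ : ℝ => y * (1 + (y * ξ) ^ 2)⁻¹) :=
    (integrable_inv_one_add_sq.comp_mul_left' hy.ne').const_mul y
  refine h.integrableOn.congr_fun (fun ξ _ => (gy_eq y ξ).symm) measurableSet_Ioi

theorem gy_integral {y : ℝ} (hy : 0 < y) : ∫ ξ in Ioi (0 : ℝ), gy y ξ = Real.pi / 2 := by
  simp_rw [gy_eq]
  rw [integral_const_mul]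
  have h := integral_comp_mul_left_Ioi (fun x : ℝ => (1 + x ^ 2)⁻¹) 0 hy
  rw [h, mul_zero, integral_Ioi_inv_one_add_sq, Real.arctan_zero, smul_eq_mul, sub_zero,
    ← mul_assoc, mul_inv_cancel₀ hy.ne', one_mul]

/-- the bounds -/
structure Bd (C y : ℝ) : Prop where
  C0 : 0 < C
  y0 : 0 < y
  y2 : y ≤ 2
  b1 : ∀ ξ : ℝ, 0 < ξ → ‖FF (Fy y) ξ‖ ≤ 2 * C * gy y ξ
  b2 : ∀ ξ : ℝ, 0 < ξ → ξ * ‖FF (Fy y) ξ‖ ^ 2 ≤ 2 * C ^ 2 * gy y ξ
  b3 : ∀ ξ : ℝ, 0 < ξ → ‖FF (Fy y) ξ‖ ^ 2 + 2 * ξ * ‖FF (Fy y) ξ‖ * ‖deriv (FF (Fy y)) ξ‖ ≤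
    16 * C ^ 2 * Real.sqrt y * gy y ξ
  b4 : ∀ ξ : ℝ, 0 < ξ → |ξ * ‖FF (Fy y) ξ‖ ^ 2 - ξ * (Real.pi * y * Real.exp (-(y * ξ))) ^ 2| ≤
    C * (C + 4) * y ^ 2 * gy y ξ

theorem bd_of {C y : ℝ} (hC : 0 < C) (hy : 0 < y) (hy2 : y ≤ 2)
    (h : ∀ ξ : ℝ, 0 < ξ → ‖FF (Fy y) ξ‖ ≤ C * y ∧ ‖FF (Fy y) ξ‖ ≤ C / (y * ξ ^ 2) ∧
    ‖deriv (FF (Fy y)) ξ‖ ≤ C * (y * Real.sqrt y) ∧ ‖deriv (FF (Fy y)) ξ‖ ≤ C / ξ ^ 2 ∧
    ‖FF (Fy y) ξ - ((Real.pi * y * Real.exp (-(y * ξ)) : ℝ) : ℂ)‖ ≤ C * y ^ 2 / (1 + ξ ^ 2)) :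
    Bd C y := by
  have hsq : Real.sqrt y ^ 2 = y := Real.sq_sqrt hy.le
  have hs0 : 0 < Real.sqrt y := Real.sqrt_pos.2 hy
  have hs2 : Real.sqrt y ≤ 2 := by
    rw [Real.sqrt_le_left (by norm_num)]
    linarith
  have b1 : ∀ ξ : ℝ, 0 < ξ → ‖FF (Fy y) ξ‖ ≤ 2 * C * gy y ξ := by
    intro ξ hξ
    obtain ⟨h1, h2, -, -, -⟩ := h ξ hξ
    rw [le_div_iff₀ (by positivity)] at h2
    unfold gy
    rw [mul_div_assoc', le_div_iff₀ (by positivity)]
    have h3 : ‖FF (Fy y) ξ‖ * (y * ξ) ^ 2 ≤ C * y := by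
      have e : ‖FF (Fy y) ξ‖ * (y * ξ) ^ 2 = y * (‖FF (Fy y) ξ‖ * (y * ξ ^ 2)) := by ring
      rw [e, mul_comm C]
      exact mul_le_mul_of_nonneg_left h2 hy.le
    nlinarith
  have hg1 : ∀ ξ : ℝ, gy y ξ ≤ y := by
    intro ξ
    unfold gy
    rw [div_le_iff₀ (by positivity)]
    nlinarith [sq_nonneg (y * ξ), mul_nonneg hy.le (sq_nonneg (y * ξ))]
  have hg2 : ∀ ξ : ℝ, 0 < ξ → 2 * (ξ * gy y ξ) ≤ 1 := by
    intro ξ hξ
    unfold gy
    rw [mul_div_assoc', mul_div_assoc', div_le_one (by positivity)]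
    nlinarith [sq_nonneg (y * ξ - 1)]
  refine ⟨hC, hy, hy2, b1, ?_, ?_, ?_⟩
  · intro ξ hξ
    have h1 := b1 ξ hξ
    have h0 : 0 ≤ ‖FF (Fy y) ξ‖ := norm_nonneg _
    have hg := gy_pos hy ξ
    have h2 : ‖FF (Fy y) ξ‖ ^ 2 ≤ (2 * C * gy y ξ) ^ 2 := pow_le_pow_left₀ h0 h1 2
    calc ξ * ‖FF (Fy y) ξ‖ ^ 2 ≤ ξ * (2 * C * gy y ξ) ^ 2 := mul_le_mul_of_nonneg_left h2 hξ.le
      _ = 2 * C ^ 2 * gy y ξ * (2 * (ξ * gy y ξ)) := by ring
      _ ≤ 2 * C ^ 2 * gy y ξ * 1 := mul_le_mul_of_nonneg_left (hg2 ξ hξ) (by positivity)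
      _ = 2 * C ^ 2 * gy y ξ := mul_one _
  · intro ξ hξ
    have h1 := b1 ξ hξ
    obtain ⟨-, -, h3, h4, -⟩ := h ξ hξ
    have h0 : 0 ≤ ‖FF (Fy y) ξ‖ := norm_nonneg _
    have hd0 : 0 ≤ ‖deriv (FF (Fy y)) ξ‖ := norm_nonneg _
    have hg := gy_pos hy ξ
    -- `ξ ‖FF'‖ ≤ 2 C √y`
    have h5 : ξ * ‖deriv (FF (Fy y)) ξ‖ ≤ 2 * C * Real.sqrt y := by
      refine le_of_sq_le_sq ?_ (by positivity)
      rw [le_div_iff₀ (by positivity)] at h4
      calc (ξ * ‖deriv (FF (Fy y)) ξ‖) ^ 2 =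
          (‖deriv (FF (Fy y)) ξ‖ * ξ ^ 2) * ‖deriv (FF (Fy y)) ξ‖ := by ring
        _ ≤ C * (C * (y * Real.sqrt y)) := mul_le_mul h4 h3 hd0 hC.le
        _ ≤ C * (C * (y * 2)) := by
            refine mul_le_mul_of_nonneg_left ?_ hC.le
            refine mul_le_mul_of_nonneg_left ?_ hC.le
            exact mul_le_mul_of_nonneg_left hs2 hy.le
        _ ≤ (2 * C * Real.sqrt y) ^ 2 := by
            rw [mul_pow, hsq]
            nlinarith [mul_pos (mul_pos hC hC) hy]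
    have h6 : ‖FF (Fy y) ξ‖ ^ 2 ≤ 8 * C ^ 2 * Real.sqrt y * gy y ξ := by
      calc ‖FF (Fy y) ξ‖ ^ 2 ≤ (2 * C * gy y ξ) ^ 2 := pow_le_pow_left₀ h0 h1 2
        _ = 4 * C ^ 2 * gy y ξ * gy y ξ := by ring
        _ ≤ 4 * C ^ 2 * gy y ξ * y := mul_le_mul_of_nonneg_left (hg1 ξ) (by positivity)
        _ = 4 * C ^ 2 * gy y ξ * (Real.sqrt y * Real.sqrt y) := by
            rw [← sq, hsq]
        _ ≤ 4 * C ^ 2 * gy y ξ * (Real.sqrt y * 2) := by
            refine mul_le_mul_of_nonneg_left ?_ (by positivity)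
            exact mul_le_mul_of_nonneg_left hs2 hs0.le
        _ = 8 * C ^ 2 * Real.sqrt y * gy y ξ := by ring
    have h7 : 2 * ξ * ‖FF (Fy y) ξ‖ * ‖deriv (FF (Fy y)) ξ‖ ≤
        8 * C ^ 2 * Real.sqrt y * gy y ξ := by
      calc 2 * ξ * ‖FF (Fy y) ξ‖ * ‖deriv (FF (Fy y)) ξ‖ =
          2 * (‖FF (Fy y) ξ‖ * (ξ * ‖deriv (FF (Fy y)) ξ‖)) := by ring
        _ ≤ 2 * ((2 * C * gy y ξ) * (2 * C * Real.sqrt y)) := by
            refine mul_le_mul_of_nonneg_left ?_ (by norm_num)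
            exact mul_le_mul h1 h5 (by positivity) (by positivity)
        _ = 8 * C ^ 2 * Real.sqrt y * gy y ξ := by ring
    linarith
  · intro ξ hξ
    have h1 := b1 ξ hξ
    obtain ⟨-, -, -, -, h5⟩ := h ξ hξ
    have h0 : 0 ≤ ‖FF (Fy y) ξ‖ := norm_nonneg _
    have hg := gy_pos hy ξ
    obtain ⟨P, hP⟩ : ∃ P : ℝ, P = Real.pi * y * Real.exp (-(y * ξ)) := ⟨_, rfl⟩
    have hP0 : 0 < P := by
      rw [hP]
      have := Real.pi_pos
      positivity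
    rw [← hP] at h5 ⊢
    have h6 : |‖FF (Fy y) ξ‖ - P| ≤ C * y ^ 2 / (1 + ξ ^ 2) := by
      refine le_trans ?_ h5
      have h7 := abs_norm_sub_norm_le (FF (Fy y) ξ) ((P : ℝ) : ℂ)
      rwa [Complex.norm_real, Real.norm_eq_abs, abs_of_pos hP0] at h7
    have h8 : P ≤ 8 * gy y ξ := by
      have hy1 : 0 < y * ξ := mul_pos hy hξ
      have hexp := Real.quadratic_le_exp_of_nonneg hy1.le
      have h9 : Real.exp (-(y * ξ)) ≤ 2 / (1 + (y * ξ) ^ 2) := by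
        rw [Real.exp_neg, inv_eq_one_div, div_le_div_iff₀ (Real.exp_pos _) (by positivity)]
        nlinarith
      have hpi : Real.pi ≤ 4 := Real.pi_le_four
      rw [hP]
      unfold gy
      calc Real.pi * y * Real.exp (-(y * ξ)) ≤ 4 * y * (2 / (1 + (y * ξ) ^ 2)) := by
            refine mul_le_mul ?_ h9 (Real.exp_pos _).le (by positivity)
            exact mul_le_mul_of_nonneg_right hpi hy.le
        _ = 8 * (y / (1 + (y * ξ) ^ 2)) := by ring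
    have e : ξ * ‖FF (Fy y) ξ‖ ^ 2 - ξ * P ^ 2 =
        ξ * ((‖FF (Fy y) ξ‖ - P) * (‖FF (Fy y) ξ‖ + P)) := by ring
    rw [e, abs_mul, abs_mul, abs_of_pos hξ, abs_of_nonneg (add_nonneg h0 hP0.le)]
    have h10 : ξ / (1 + ξ ^ 2) ≤ 1 / 2 := by
      rw [div_le_div_iff₀ (by positivity) (by norm_num)]
      nlinarith [sq_nonneg (ξ - 1)]
    calc ξ * (|‖FF (Fy y) ξ‖ - P| * (‖FF (Fy y) ξ‖ + P))
        ≤ ξ * (C * y ^ 2 / (1 + ξ ^ 2) * (2 * C * gy y ξ + 8 * gy y ξ)) := by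
          refine mul_le_mul_of_nonneg_left ?_ hξ.le
          refine mul_le_mul h6 (add_le_add h1 h8) (add_nonneg h0 hP0.le) (by positivity)
      _ = (ξ / (1 + ξ ^ 2)) * (C * y ^ 2 * (2 * C * gy y ξ + 8 * gy y ξ)) := by ring
      _ ≤ (1 / 2) * (C * y ^ 2 * (2 * C * gy y ξ + 8 * gy y ξ)) :=
          mul_le_mul_of_nonneg_right h10 (by positivity)
      _ = C * (C + 4) * y ^ 2 * gy y ξ := by ring

theorem va_le {C y : ℝ} (h : Bd C y) :
    ∫ ξ in Ioi (0 : ℝ), ξ * ‖FF (Fy y) ξ‖ ^ 2 ≤ 4 * C ^ 2 := by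
  have hint := (gy_integrable h.y0).const_mul (2 * C ^ 2)
  have h1 : ∫ ξ in Ioi (0 : ℝ), ξ * ‖FF (Fy y) ξ‖ ^ 2 ≤ ∫ ξ in Ioi (0 : ℝ), 2 * C ^ 2 * gy y ξ := by
    refine integral_mono_of_nonneg ?_ hint ?_
    · refine ae_restrict_of_forall_mem measurableSet_Ioi ?_
      intro ξ hξ
      exact mul_nonneg (le_of_lt hξ) (sq_nonneg _)
    · refine ae_restrict_of_forall_mem measurableSet_Ioi ?_
      intro ξ hξ
      exact h.b2 ξ hξ
  rw [integral_const_mul, gy_integral h.y0] at h1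
  nlinarith [Real.pi_le_four, sq_nonneg C]

theorem tv_le {C y : ℝ} (h : Bd C y) :
    ∫ ξ in Ioi (0 : ℝ), (‖FF (Fy y) ξ‖ ^ 2 + 2 * ξ * ‖FF (Fy y) ξ‖ * ‖deriv (FF (Fy y)) ξ‖) ≤
      32 * C ^ 2 * Real.sqrt y := by
  have hint := (gy_integrable h.y0).const_mul (16 * C ^ 2 * Real.sqrt y)
  have h1 : ∫ ξ in Ioi (0 : ℝ),
      (‖FF (Fy y) ξ‖ ^ 2 + 2 * ξ * ‖FF (Fy y) ξ‖ * ‖deriv (FF (Fy y)) ξ‖) ≤
      ∫ ξ in Ioi (0 : ℝ), 16 * C ^ 2 * Real.sqrt y * gy y ξ := by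
    refine integral_mono_of_nonneg ?_ hint ?_
    · refine ae_restrict_of_forall_mem measurableSet_Ioi ?_
      intro ξ hξ
      have hξ' : 0 < ξ := hξ
      show 0 ≤ ‖FF (Fy y) ξ‖ ^ 2 + 2 * ξ * ‖FF (Fy y) ξ‖ * ‖deriv (FF (Fy y)) ξ‖
      positivity
    · refine ae_restrict_of_forall_mem measurableSet_Ioi ?_
      intro ξ hξ
      exact h.b3 ξ hξ
  rw [integral_const_mul, gy_integral h.y0] at h1
  have h2 : 0 ≤ C ^ 2 * Real.sqrt y := by positivity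
  nlinarith [Real.pi_le_four]

/-- the integral of the main term -/
theorem main_integral {y : ℝ} (hy : 0 < y) :
    ∫ ξ in Ioi (0 : ℝ), ξ * (Real.pi * y * Real.exp (-(y * ξ))) ^ 2 = Real.pi ^ 2 / 4 := by
  have h := Real.integral_rpow_mul_exp_neg_mul_Ioi (a := 2) (r := 2 * y) (by norm_num)
    (by positivity)
  have hG : Real.Gamma 2 = 1 := Real.Gamma_two
  rw [hG, mul_one] at h
  have e : ∀ ξ ∈ Ioi (0 : ℝ), ξ * (Real.pi * y * Real.exp (-(y * ξ))) ^ 2 =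
      (Real.pi * y) ^ 2 * (ξ ^ ((2 : ℝ) - 1) * Real.exp (-(2 * y * ξ))) := by
    intro ξ _
    rw [show (2 : ℝ) - 1 = 1 by norm_num, Real.rpow_one, mul_pow, ← Real.exp_nat_mul]
    have e2 : ((2 : ℕ) : ℝ) * -(y * ξ) = -(2 * y * ξ) := by push_cast; ring
    rw [e2]
    ring
  rw [setIntegral_congr_fun measurableSet_Ioi e, integral_const_mul, h]
  rw [show ((2 : ℝ)) = ((2 : ℕ) : ℝ) by norm_num, Real.rpow_natCast]
  push_cast
  field_simp
  norm_num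

theorem sg_bd {C y : ℝ} (h : Bd C y) (hc : ContinuousOn (FF (Fy y)) (Ioi 0)) :
    |sg (Fy y) - 1 / 8| ≤ C * (C + 4) * y ^ 2 := by
  have hy := h.y0
  have hC := h.C0
  have hg := gy_integrable h.y0
  -- integrability
  have hI1 : IntegrableOn (fun ξ : ℝ => ξ * ‖FF (Fy y) ξ‖ ^ 2) (Ioi 0) := by
    refine Integrable.mono' (hg.const_mul (2 * C ^ 2)) ?_ ?_
    · refine ContinuousOn.aestronglyMeasurable ?_ measurableSet_Ioi
      exact continuousOn_id.mul (hc.norm.pow 2)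
    · refine ae_restrict_of_forall_mem measurableSet_Ioi ?_
      intro ξ hξ
      have hξ' : 0 < ξ := hξ
      rw [Real.norm_eq_abs, abs_of_nonneg (by positivity)]
      exact h.b2 ξ hξ
  have hI3 : IntegrableOn (fun ξ : ℝ => ξ * ‖FF (Fy y) ξ‖ ^ 2 -
      ξ * (Real.pi * y * Real.exp (-(y * ξ))) ^ 2) (Ioi 0) := by
    refine Integrable.mono' (hg.const_mul (C * (C + 4) * y ^ 2)) ?_ ?_
    · refine ContinuousOn.aestronglyMeasurable ?_ measurableSet_Ioi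
      refine (continuousOn_id.mul (hc.norm.pow 2)).sub ?_
      exact Continuous.continuousOn (by fun_prop)
    · refine ae_restrict_of_forall_mem measurableSet_Ioi ?_
      intro ξ hξ
      exact h.b4 ξ hξ
  have hI2 : IntegrableOn (fun ξ : ℝ => ξ * (Real.pi * y * Real.exp (-(y * ξ))) ^ 2) (Ioi 0) := by
    have h1 := hI1.sub hI3
    refine h1.congr_fun (fun ξ _ => ?_) measurableSet_Ioi
    simp only [Pi.sub_apply]
    ring
  have e1 : ∫ ξ in Ioi (0 : ℝ), (ξ * ‖FF (Fy y) ξ‖ ^ 2 -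
      ξ * (Real.pi * y * Real.exp (-(y * ξ))) ^ 2) =
      (∫ ξ in Ioi (0 : ℝ), ξ * ‖FF (Fy y) ξ‖ ^ 2) - Real.pi ^ 2 / 4 := by
    rw [integral_sub hI1 hI2, main_integral hy]
  have e2 : |∫ ξ in Ioi (0 : ℝ), (ξ * ‖FF (Fy y) ξ‖ ^ 2 -
      ξ * (Real.pi * y * Real.exp (-(y * ξ))) ^ 2)| ≤ C * (C + 4) * y ^ 2 * (Real.pi / 2) := by
    rw [← gy_integral hy, ← integral_const_mul, ← Real.norm_eq_abs]
    refine norm_integral_le_of_norm_le (hg.const_mul _) ?_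
    refine ae_restrict_of_forall_mem measurableSet_Ioi ?_
    intro ξ hξ
    rw [Real.norm_eq_abs]
    exact h.b4 ξ hξ
  rw [e1] at e2
  have e3 : sg (Fy y) - 1 / 8 = 1 / (2 * Real.pi ^ 2) *
      ((∫ ξ in Ioi (0 : ℝ), ξ * ‖FF (Fy y) ξ‖ ^ 2) - Real.pi ^ 2 / 4) := by
    unfold sg
    have := Real.pi_pos
    field_simp
    ring
  have hpi := Real.pi_gt_three
  rw [e3, abs_mul, abs_of_pos (by positivity)]
  have hK : 0 ≤ C * (C + 4) * y ^ 2 := by positivity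
  calc 1 / (2 * Real.pi ^ 2) * |(∫ ξ in Ioi (0 : ℝ), ξ * ‖FF (Fy y) ξ‖ ^ 2) - Real.pi ^ 2 / 4|
      ≤ 1 / (2 * Real.pi ^ 2) * (C * (C + 4) * y ^ 2 * (Real.pi / 2)) :=
        mul_le_mul_of_nonneg_left e2 (by positivity)
    _ = C * (C + 4) * y ^ 2 * (1 / (4 * Real.pi)) := by
        field_simp
        ring
    _ ≤ C * (C + 4) * y ^ 2 * 1 := by
        refine mul_le_mul_of_nonneg_left ?_ hK
        rw [div_le_one (by positivity)]
        linarith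
    _ = C * (C + 4) * y ^ 2 := mul_one _

/-! ### scaling -/

theorem FF_smul (u : ℝ) (F : ℝ → ℝ) : FF (fun x => u * F x) = fun ξ => (u : ℂ) * FF F ξ := by
  funext ξ
  unfold FF
  rw [← integral_const_mul]
  refine integral_congr_ae (Filter.Eventually.of_forall fun s => ?_)
  simp only
  push_cast
  ring

theorem deriv_FF_smul (u : ℝ) (F : ℝ → ℝ) (ξ : ℝ) :
    deriv (FF (fun x => u * F x)) ξ = (u : ℂ) * deriv (FF F) ξ := by
  rw [FF_smul]
  exact deriv_const_mul_field _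

theorem norm_FF_smul (u : ℝ) (F : ℝ → ℝ) (ξ : ℝ) :
    ‖FF (fun x => u * F x) ξ‖ = |u| * ‖FF F ξ‖ := by
  rw [FF_smul, norm_mul, Complex.norm_real, Real.norm_eq_abs]

theorem norm_deriv_FF_smul (u : ℝ) (F : ℝ → ℝ) (ξ : ℝ) :
    ‖deriv (FF (fun x => u * F x)) ξ‖ = |u| * ‖deriv (FF F) ξ‖ := by
  rw [deriv_FF_smul, norm_mul, Complex.norm_real, Real.norm_eq_abs]

theorem va_smul (u : ℝ) (F : ℝ → ℝ) :
    ∫ ξ in Ioi (0 : ℝ), ξ * ‖FF (fun x => u * F x) ξ‖ ^ 2 =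
      u ^ 2 * ∫ ξ in Ioi (0 : ℝ), ξ * ‖FF F ξ‖ ^ 2 := by
  rw [← integral_const_mul]
  refine integral_congr_ae (Filter.Eventually.of_forall fun ξ => ?_)
  simp only
  rw [norm_FF_smul, mul_pow, sq_abs]
  ring

theorem tv_smul (u : ℝ) (F : ℝ → ℝ) :
    ∫ ξ in Ioi (0 : ℝ), (‖FF (fun x => u * F x) ξ‖ ^ 2 +
      2 * ξ * ‖FF (fun x => u * F x) ξ‖ * ‖deriv (FF (fun x => u * F x)) ξ‖) =
      u ^ 2 * ∫ ξ in Ioi (0 : ℝ), (‖FF F ξ‖ ^ 2 + 2 * ξ * ‖FF F ξ‖ * ‖deriv (FF F) ξ‖) := by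
  rw [← integral_const_mul]
  refine integral_congr_ae (Filter.Eventually.of_forall fun ξ => ?_)
  simp only
  rw [norm_FF_smul, norm_deriv_FF_smul, mul_pow, sq_abs]
  have : |u| * |u| = u ^ 2 := by rw [← sq, sq_abs]
  linear_combination (2 * ξ * ‖FF F ξ‖ * ‖deriv (FF F) ξ‖) * this

theorem sg_smul (u : ℝ) (F : ℝ → ℝ) : sg (fun x => u * F x) = u ^ 2 * sg F := by
  unfold sg
  rw [va_smul]
  ring

theorem deriv2_smul (u : ℝ) (F : ℝ → ℝ) :
    deriv (deriv (fun x => u * F x)) = fun x => u * deriv (deriv F) x := by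
  have h1 : deriv (fun x => u * F x) = fun x => u * deriv F x := by
    funext x
    exact deriv_const_mul_field _
  rw [h1]
  funext x
  exact deriv_const_mul_field _

theorem C2c_smul (u : ℝ) {F : ℝ → ℝ} (h : C2c F) : C2c (fun x => u * F x) :=
  ⟨contDiff_const.mul h.cd, fun x hx => by simp only [h.supp x hx, mul_zero]⟩

theorem adm_smul {C y : ℝ} (h : Bd C y) (h2c : C2c (Fy y)) (hl1 : ∫ x : ℝ, |Fy y x| ≤ C * y)
    (hl2 : ∫ x : ℝ, |deriv (deriv (Fy y)) x| ≤ C / y) (u η V L : ℝ)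
    (c1 : |u| * (C * y) ≤ η) (c2 : |u| * (C / y) ≤ η * L) (c3 : u ^ 2 * (4 * C ^ 2) ≤ V)
    (c4 : u ^ 2 * (32 * C ^ 2 * Real.sqrt y) ≤ η) : Adm η V L (fun x => u * Fy y x) := by
  refine ⟨C2c_smul u h2c, ?_, ?_, ?_, ?_⟩
  · have e : ∫ x : ℝ, |u * Fy y x| = |u| * ∫ x : ℝ, |Fy y x| := by
      rw [← integral_const_mul]
      refine integral_congr_ae (Filter.Eventually.of_forall fun x => ?_)
      exact abs_mul _ _
    rw [e]
    exact (mul_le_mul_of_nonneg_left hl1 (abs_nonneg _)).trans c1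
  · have e : ∫ x : ℝ, |deriv (deriv (fun x => u * Fy y x)) x| =
        |u| * ∫ x : ℝ, |deriv (deriv (Fy y)) x| := by
      rw [← integral_const_mul, deriv2_smul]
      refine integral_congr_ae (Filter.Eventually.of_forall fun x => ?_)
      exact abs_mul _ _
    rw [e]
    exact (mul_le_mul_of_nonneg_left hl2 (abs_nonneg _)).trans c2
  · rw [va_smul]
    exact (mul_le_mul_of_nonneg_left (va_le h) (sq_nonneg _)).trans c3
  · rw [tv_smul]
    exact (mul_le_mul_of_nonneg_left (tv_le h) (sq_nonneg _)).trans c4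

end

end Pool.Agent.H178.GA

namespace Pool.Agent.H487.GA

open Pool.Agent.H178.GA

theorem kad_proof : S_KB → S_KAD := by
  rintro ⟨C, hC, hKB⟩
  constructor
  · -- first part
    obtain ⟨c, hc⟩ : ∃ c : ℝ, c = 1 / (1 + 2 * C + 64 * C ^ 2) := ⟨_, rfl⟩
    have hden : 0 < 1 + 2 * C + 64 * C ^ 2 := by positivity
    have hc0 : 0 < c := by rw [hc]; positivity
    have hcm : c * (1 + 2 * C + 64 * C ^ 2) = 1 := by
      rw [hc]
      field_simp
    have hc1 : c ≤ 1 := by nlinarith [mul_pos hc0 hC, mul_pos hc0 (pow_pos hC 2)]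
    refine ⟨c, 4 * C ^ 2, hc0, by positivity, ?_⟩
    intro y L hy hy2 hL hyL
    obtain ⟨h2c, hl1, hl2, _, _, hb⟩ := hKB y hy hy2
    have hs2 : Real.sqrt y ≤ 2 := by
      rw [Real.sqrt_le_left (by norm_num)]
      linarith
    have hs0 := Real.sqrt_nonneg y
    refine adm_smul (bd_of hC hy hy2 hb) h2c hl1 hl2 c 1 (4 * C ^ 2) L ?_ ?_ ?_ ?_
    · rw [abs_of_pos hc0]
      have h1 : c * (C * y) ≤ c * (C * 2) :=
        mul_le_mul_of_nonneg_left (mul_le_mul_of_nonneg_left hy2 hC.le) hc0.le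
      nlinarith [mul_pos hc0 (pow_pos hC 2)]
    · rw [abs_of_pos hc0, one_mul]
      have h1 : C / y ≤ C * L := by
        rw [div_le_iff₀ hy]
        nlinarith
      have h2 : c * C ≤ 1 := by nlinarith [mul_pos hc0 (pow_pos hC 2), mul_pos hc0 hC]
      calc c * (C / y) ≤ c * (C * L) := mul_le_mul_of_nonneg_left h1 hc0.le
        _ = (c * C) * L := by ring
        _ ≤ 1 * L := mul_le_mul_of_nonneg_right h2 (by linarith)
        _ = L := one_mul _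
    · have h1 : c ^ 2 ≤ 1 := by nlinarith
      nlinarith [pow_pos hC 2]
    · have h1 : c ^ 2 ≤ c := by nlinarith
      have h2 : c ^ 2 * (32 * C ^ 2 * Real.sqrt y) ≤ c * (32 * C ^ 2 * 2) := by
        refine mul_le_mul h1 ?_ (by positivity) hc0.le
        exact mul_le_mul_of_nonneg_left hs2 (by positivity)
      nlinarith [mul_pos hc0 hC]
  · -- second part
    intro u
    refine ⟨u ^ 2 * (4 * C ^ 2) + 1, by positivity, ?_⟩
    intro η hη
    obtain ⟨M, hM⟩ : ∃ M : ℝ, M = 1 + |u| * C + u ^ 2 * (32 * C ^ 2) + u ^ 2 * (C * (C + 4)) :=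
      ⟨_, rfl⟩
    have hM1 : 0 ≤ |u| * C := by positivity
    have hM2 : 0 ≤ u ^ 2 * (32 * C ^ 2) := by positivity
    have hM3 : 0 ≤ u ^ 2 * (C * (C + 4)) := by positivity
    have hM0 : 0 < M := by rw [hM]; linarith
    obtain ⟨s, hs⟩ : ∃ s : ℝ, s = min 1 (η / M) := ⟨_, rfl⟩
    have hs0 : 0 < s := by
      rw [hs]
      exact lt_min one_pos (div_pos hη hM0)
    have hs1 : s ≤ 1 := by rw [hs]; exact min_le_left _ _
    have hsM : s * M ≤ η := by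
      rw [← le_div_iff₀ hM0, hs]
      exact min_le_right _ _
    refine ⟨s ^ 2, 1 + |u| * C / η, by positivity, by
      have : 0 ≤ |u| * C / η := by positivity
      linarith, ?_⟩
    intro y L hy hyδ hK
    have hys : y ≤ s := by nlinarith
    have hy1 : y ≤ 1 := hys.trans hs1
    have hsq : Real.sqrt y ≤ s := by
      rw [Real.sqrt_le_left hs0.le]
      exact hyδ
    have hsq0 := Real.sqrt_nonneg y
    obtain ⟨h2c, hl1, hl2, hcont, _, hb⟩ := hKB y hy (by linarith)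
    have hbd := bd_of hC hy (by linarith) hb
    constructor
    · refine adm_smul hbd h2c hl1 hl2 u η _ L ?_ ?_ ?_ ?_
      · have h1 : |u| * (C * y) ≤ |u| * C * s := by
          rw [← mul_assoc]
          exact mul_le_mul_of_nonneg_left hys hM1
        have h2 : |u| * C * s ≤ s * M := by
          rw [mul_comm s M]
          exact mul_le_mul_of_nonneg_right (by rw [hM]; linarith) hs0.le
        linarith
      · have h1 : |u| * C ≤ η * (y * L) := by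
          have h2 : |u| * C / η ≤ y * L := by linarith
          rw [div_le_iff₀ hη] at h2
          linarith
        have e : |u| * (C / y) = |u| * C / y := by ring
        rw [e, div_le_iff₀ hy]
        linarith
      · linarith
      · have h1 : u ^ 2 * (32 * C ^ 2 * Real.sqrt y) ≤ u ^ 2 * (32 * C ^ 2) * s := by
          rw [← mul_assoc]
          exact mul_le_mul_of_nonneg_left hsq hM2
        have h2 : u ^ 2 * (32 * C ^ 2) * s ≤ s * M := by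
          rw [mul_comm s M]
          exact mul_le_mul_of_nonneg_right (by rw [hM]; linarith) hs0.le
        linarith
    · rw [sg_smul]
      have e : u ^ 2 * sg (Fy y) - u ^ 2 / 8 = u ^ 2 * (sg (Fy y) - 1 / 8) := by ring
      rw [e, abs_mul, abs_of_nonneg (sq_nonneg u)]
      have h1 := sg_bd hbd hcont
      have h2 : u ^ 2 * |sg (Fy y) - 1 / 8| ≤ u ^ 2 * (C * (C + 4) * y ^ 2) :=
        mul_le_mul_of_nonneg_left h1 (sq_nonneg _)
      have h3 : u ^ 2 * (C * (C + 4) * y ^ 2) ≤ u ^ 2 * (C * (C + 4)) * s := by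
        rw [← mul_assoc]
        refine mul_le_mul_of_nonneg_left ?_ hM3
        nlinarith
      have h4 : u ^ 2 * (C * (C + 4)) * s ≤ s * M := by
        rw [mul_comm s M]
        exact mul_le_mul_of_nonneg_right (by rw [hM]; linarith) hs0.le
      linarith

end Pool.Agent.H487.GA
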